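import Pool.Agent.N704.PP.Loc1

/-!
# Local analysis at the primes dividing `D`

Project PP (helper874), part PP-LOC2 (helper704).
-/

set_option autoImplicit false
set_option linter.all false

open Polynomial IsDedekindDomain WithZero
open Pool.Agent.N874.PP
open scoped Classical

namespace Pool.Agent.N704.PP

theorem mlt {x y : WithZero (Multiplicative ℤ)} (hx : x ≤ 1) (hy : y < 1) : x * y < 1 :=
  lt_of_le_of_lt (mul_le_mul' hx le_rfl) (by rw [one_mul]; exact hy)

theorem mlt' {x y : WithZero (Multiplicative ℤ)} (hx : x < 1) (hy : y ≤ 1) : x * y < 1 :=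
  lt_of_le_of_lt (mul_le_mul' le_rfl hy) (by rw [mul_one]; exact hx)

/-- Nonsquares of a finite field. -/
theorem sq_or {F : Type} [Field F] [Finite F] {n u : F} (hn : ¬ IsSquare n) :
    IsSquare u ∨ IsSquare (n * u) := by
  haveI := Fintype.ofFinite F
  by_cases hu : IsSquare u
  · exact Or.inl hu
  · right
    have h1 := (quadraticChar_neg_one_iff_not_isSquare).2 hn
    have h2 := (quadraticChar_neg_one_iff_not_isSquare).2 hu
    have h0 : n * u ≠ 0 := by
      refine mul_ne_zero ?_ ?_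
      · rintro rfl; exact hn ⟨0, by simp⟩
      · rintro rfl; exact hu ⟨0, by simp⟩
    rw [← quadraticChar_one_iff_isSquare h0, map_mul, h1, h2]
    norm_num

theorem sq_or_poly {k : Type} [Field k] [Finite k] {Q : k[X]} (hQ : Irreducible Q) {a : k[X]}
    (ha : ∀ z : k[X], ¬ Q ∣ z ^ 2 + a) (u : k[X]) :
    (∃ w : k[X], Q ∣ w ^ 2 - u) ∨ ∃ w : k[X], Q ∣ w ^ 2 + a * u := by
  haveI : Fact (Irreducible Q) := ⟨hQ⟩
  haveI : Module.Finite k (AdjoinRoot Q) := (AdjoinRoot.powerBasis hQ.ne_zero).finite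
  haveI : Finite (AdjoinRoot Q) := Module.finite_of_finite k
  have hn : ¬ IsSquare (AdjoinRoot.mk Q (-a)) := by
    rintro ⟨r, hr⟩
    obtain ⟨z, rfl⟩ := AdjoinRoot.mk_surjective r
    apply ha z
    rw [← AdjoinRoot.mk_eq_zero, map_add, map_pow, pow_two, ← hr, map_neg]
    ring
  rcases sq_or hn (u := AdjoinRoot.mk Q u) with ⟨r, hr⟩ | ⟨r, hr⟩
  · left
    obtain ⟨z, rfl⟩ := AdjoinRoot.mk_surjective r
    refine ⟨z, ?_⟩
    rw [← AdjoinRoot.mk_eq_zero, map_sub, map_pow, hr]
    ring
  · right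
    obtain ⟨z, rfl⟩ := AdjoinRoot.mk_surjective r
    refine ⟨z, ?_⟩
    rw [← AdjoinRoot.mk_eq_zero, map_add, map_pow, map_mul]
    rw [map_neg] at hr
    linear_combination -hr

section ov

variable {k K L O : Type} [Field k] [Field K] [Algebra k[X] K] [IsFractionRing k[X] K]
  [Field L] [Algebra K L] [Algebra k[X] L] [IsScalarTower k[X] K L] [CommRing O]
  [IsDedekindDomain O] [Algebra O L] [IsFractionRing O L] [Algebra k[X] O]
  [IsScalarTower k[X] O L]

theorem val_dvd {𝔓 : HeightOneSpectrum O} {Q n : k[X]} (h : Q ∣ n) :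
    𝔓.valuation L (algebraMap k[X] L n) ≤ 𝔓.valuation L (algebraMap k[X] L Q) := by
  obtain ⟨m, rfl⟩ := h
  rw [map_mul, map_mul]
  calc _ ≤ 𝔓.valuation L (algebraMap k[X] L Q) * 1 := mul_le_mul' le_rfl (valO_le_one 𝔓 m)
    _ = _ := mul_one _

/-- At the prime of degree two `θ ^ 2 + a` is divisible by `Q`. -/
theorem th2 {a b : k[X]} {θ : L} (hc : IsCub K a b θ) {Q : k[X]} {𝔓 : HeightOneSpectrum O}
    (hb : Q ∣ b) (h1 : 𝔓.valuation L θ = 1) :
    𝔓.valuation L (θ ^ 2 + algebraMap k[X] L a) ≤ 𝔓.valuation L (algebraMap k[X] L Q) := by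
  have e : (θ ^ 2 + algebraMap k[X] L a) * θ = - algebraMap k[X] L b := by
    linear_combination hc.root
  have h2 := congrArg (𝔓.valuation L) e
  rw [map_mul, h1, mul_one, Valuation.map_neg] at h2
  rw [h2]
  exact val_dvd hb

theorem valQ [IsIntegralClosure O k[X] L] {a b : k[X]} {θ : L} (hc : IsCub K a b θ)
    (hint : ∀ x : L, IsIntegral k[X] x → ∃ v : Fin 3 → k[X], Crd θ v x)
    {Q : k[X]} (hQ : Irreducible Q) {𝔓 : HeightOneSpectrum O} (hP : Ov Q 𝔓)
    (hb : Q ∣ b) (ha : ∀ z : k[X], ¬ Q ∣ z ^ 2 + a) (h1 : 𝔓.valuation L θ = 1) :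
    𝔓.valuation L (algebraMap k[X] L Q) = exp (-1 : ℤ) := by
  have hQ1 : 𝔓.valuation L (algebraMap k[X] L Q) < 1 := (valO_lt_one hQ hP Q).2 dvd_rfl
  have h2 := th2 hc (𝔓 := 𝔓) hb h1
  obtain ⟨π, hπ⟩ := 𝔓.valuation_exists_uniformizer' L
  have hlt : 𝔓.valuation L (algebraMap O L π) < 1 := by
    show (HeightOneSpectrum.valuation L 𝔓) (algebraMap O L π) < 1
    rw [show algebraMap O L π = algebraMap O L π from rfl]
    have : (HeightOneSpectrum.valuation L 𝔓) (algebraMap O L π) = exp (-1 : ℤ) := hπ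
    rw [this, ← exp_zero, exp_lt_exp]; norm_num
  obtain ⟨u, hu⟩ := hint (algebraMap O L π)
      ((IsIntegralClosure.isIntegral_iff (A := O)).2 ⟨π, rfl⟩)
  have hu' : algebraMap O L π = algebraMap k[X] L (u 0) + algebraMap k[X] L (u 1) * θ +
      algebraMap k[X] L (u 2) * θ ^ 2 := hu
  have e : algebraMap O L π = (algebraMap k[X] L (u 0 - a * u 2) + algebraMap k[X] L (u 1) * θ) +
      algebraMap k[X] L (u 2) * (θ ^ 2 + algebraMap k[X] L a) := by
    rw [hu', map_sub, map_mul]; ring
  have h3 : 𝔓.valuation L (algebraMap k[X] L (u 2) * (θ ^ 2 + algebraMap k[X] L a)) ≤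
      𝔓.valuation L (algebraMap k[X] L Q) := by
    rw [map_mul]
    calc _ ≤ 1 * 𝔓.valuation L (algebraMap k[X] L Q) := mul_le_mul' (valO_le_one 𝔓 _) h2
      _ = _ := one_mul _
  have h4 : 𝔓.valuation L (algebraMap k[X] L (u 0 - a * u 2) + algebraMap k[X] L (u 1) * θ) < 1 := by
    have e2 : algebraMap k[X] L (u 0 - a * u 2) + algebraMap k[X] L (u 1) * θ =
        algebraMap O L π - algebraMap k[X] L (u 2) * (θ ^ 2 + algebraMap k[X] L a) := by
      rw [e]; ring
    rw [e2]
    exact lt_of_le_of_lt (Valuation.map_sub _ _ _) (max_lt hlt (lt_of_le_of_lt h3 hQ1))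
  have h5 : Q ∣ u 1 := by
    by_contra hn
    obtain ⟨w, hw⟩ := exists_inv_mod hQ hn
    -- `θ ≡ - w (u 0 - a u 2)`
    set c : k[X] := -(w * (u 0 - a * u 2)) with hcd
    have h6 : 𝔓.valuation L (θ - algebraMap k[X] L c) < 1 := by
      have e3 : θ - algebraMap k[X] L c = algebraMap k[X] L w *
          (algebraMap k[X] L (u 0 - a * u 2) + algebraMap k[X] L (u 1) * θ) +
          algebraMap k[X] L (1 - u 1 * w) * θ := by
        rw [hcd, map_neg, map_mul, map_sub _ 1, map_one, map_mul]; ring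
      rw [e3]
      refine lt_of_le_of_lt (Valuation.map_add _ _ _) (max_lt ?_ ?_)
      · rw [map_mul]
        exact mlt (valO_le_one 𝔓 _) h4
      · rw [map_mul, h1, mul_one, valO_lt_one hQ hP]
        exact hw
    apply ha c
    rw [← valO_lt_one (L := L) hQ hP]
    have e4 : algebraMap k[X] L (c ^ 2 + a) = (θ ^ 2 + algebraMap k[X] L a) -
        (θ - algebraMap k[X] L c) * (θ + algebraMap k[X] L c) := by
      rw [map_add, map_pow]; ring
    rw [e4]
    refine lt_of_le_of_lt (Valuation.map_sub _ _ _) (max_lt (lt_of_le_of_lt h2 hQ1) ?_)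
    rw [map_mul]
    refine mlt' h6 ?_
    exact (Valuation.map_add _ _ _).trans (max_le h1.le (valO_le_one 𝔓 _))
  have h6 : Q ∣ u 0 - a * u 2 := by
    rw [← valO_lt_one (L := L) hQ hP]
    have e3 : algebraMap k[X] L (u 0 - a * u 2) =
        (algebraMap k[X] L (u 0 - a * u 2) + algebraMap k[X] L (u 1) * θ) -
        algebraMap k[X] L (u 1) * θ := by ring
    rw [e3]
    refine lt_of_le_of_lt (Valuation.map_sub _ _ _) (max_lt h4 ?_)
    rw [map_mul, h1, mul_one]
    exact (valO_lt_one hQ hP _).2 h5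
  have h7 : 𝔓.valuation L (algebraMap O L π) ≤ 𝔓.valuation L (algebraMap k[X] L Q) := by
    rw [e]
    refine (Valuation.map_add _ _ _).trans (max_le ((Valuation.map_add _ _ _).trans
      (max_le (val_dvd h6) ?_)) h3)
    rw [map_mul, h1, mul_one]
    exact val_dvd h5
  have h8 : exp (-1 : ℤ) ≤ 𝔓.valuation L (algebraMap k[X] L Q) := by
    have : (HeightOneSpectrum.valuation L 𝔓) (algebraMap O L π) = exp (-1 : ℤ) := hπ
    rw [← this]; exact h7
  have h9 : 𝔓.valuation L (algebraMap k[X] L Q) ≠ 0 := by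
    intro h; rw [h] at h8; exact absurd h8 (by simp)
  rw [← exp_log h9, exp_le_exp] at h8
  rw [← exp_log h9, ← exp_zero, exp_lt_exp] at hQ1
  rw [← exp_log h9]
  congr 1
  omega

/-- Units of `k[X] / Q` are squares at the prime of degree two. -/
theorem sq_deg_two [Finite k] {a b : k[X]} {θ : L} (hc : IsCub K a b θ)
    {Q : k[X]} (hQ : Irreducible Q) {𝔓 : HeightOneSpectrum O} (hP : Ov Q 𝔓)
    (hb : Q ∣ b) (ha : ∀ z : k[X], ¬ Q ∣ z ^ 2 + a) (h1 : 𝔓.valuation L θ = 1) (u : k[X]) :
    ∃ s : L, 𝔓.valuation L (s ^ 2 - algebraMap k[X] L u) < 1 := by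
  have hQ1 : 𝔓.valuation L (algebraMap k[X] L Q) < 1 := (valO_lt_one hQ hP Q).2 dvd_rfl
  have h2 := th2 hc (𝔓 := 𝔓) hb h1
  rcases sq_or_poly hQ ha u with ⟨w, hw⟩ | ⟨w, hw⟩
  · refine ⟨algebraMap k[X] L w, ?_⟩
    rw [← map_pow, ← map_sub]
    exact (valO_lt_one hQ hP _).2 hw
  · have hθ : θ ≠ 0 := by
      rintro rfl
      rw [map_zero] at h1
      exact zero_ne_one h1
    refine ⟨algebraMap k[X] L w / θ, ?_⟩
    have e : (algebraMap k[X] L w / θ) ^ 2 - algebraMap k[X] L u =
        (algebraMap k[X] L (w ^ 2 + a * u) -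
          algebraMap k[X] L u * (θ ^ 2 + algebraMap k[X] L a)) / θ ^ 2 := by
      rw [map_add, map_pow, map_mul]
      field_simp
      ring
    rw [e, map_div₀, map_pow, h1, one_pow, div_one]
    refine lt_of_le_of_lt (Valuation.map_sub _ _ _) (max_lt ((valO_lt_one hQ hP _).2 hw) ?_)
    rw [map_mul]
    exact mlt (valO_le_one 𝔓 _) (lt_of_le_of_lt h2 hQ1)

theorem u0_of_sq1 {𝔓 : HeightOneSpectrum O} {α ϖ : L} (h : Sq1 𝔓 α) : U0 𝔓 ϖ α :=
  ⟨fun _ => h, fun hn => absurd (ev_of_sq1 𝔓 h) hn⟩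

theorem exp_odd {x y : WithZero (Multiplicative ℤ)} {n : ℤ} (hn : Odd n) (hx : x ≠ 0)
    (h : x ^ 2 * exp n = y ^ 2) : False := by
  have hy : y ≠ 0 := by
    rintro rfl
    rw [zero_pow two_ne_zero] at h
    exact mul_ne_zero (pow_ne_zero 2 hx) exp_ne_zero h
  rw [← exp_log hx, ← exp_log hy, ← exp_nsmul, ← exp_nsmul, ← exp_add, exp_inj] at h
  obtain ⟨m, hm⟩ := hn
  simp only [nsmul_eq_mul, Nat.cast_ofNat] at h
  omega

theorem u0_of_sq1' {𝔓 : HeightOneSpectrum O} {α Q θ : L} (hα : α ≠ 0)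
    (hQ : 𝔓.valuation L Q = exp (-1 : ℤ)) (hθ : 𝔓.valuation L θ = 1)
    (h : Sq1 𝔓 (α * (Q * θ))) : U0 𝔓 (Q * θ) α := by
  refine ⟨fun he => ?_, fun _ => h⟩
  exfalso
  obtain ⟨y, hy⟩ := he
  obtain ⟨z, hz⟩ := ev_of_sq1 𝔓 h
  rw [map_mul, map_mul, hQ, hθ, mul_one, hy] at hz
  have h0 : 𝔓.valuation L y ≠ 0 := by
    intro h0
    rw [h0, zero_pow two_ne_zero] at hy
    exact hα ((Valuation.zero_iff _).1 hy)
  exact exp_odd ⟨-1, by norm_num⟩ h0 hz

end ov

theorem loc2 (h0 : S_INT) (h1 : S_PARQ) : S_LOC2 := by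
  intro k K L O _ _ _ _ _ _ _ _ _ _ _ _ _ _ _ _ a b θ h6 hcub hsq Q v hQ hv hb ha D' h hD hne hN
    hl
  refine ⟨?_, fun 𝔓 h𝔓 hlt => h1 k K L O a b θ h6 hcub hsq Q hQ hb ha _ hne hN 𝔓 h𝔓 hlt⟩
  intro 𝔓 h𝔓 hθ
  have hΘ := hTheta hcub (Q * D')
  set Θ : L := algebraMap k[X] L (Q * D') * θ with hΘd
  set α : L := aeval Θ h with hα
  have hvQ : 𝔓.valuation L (algebraMap k[X] L Q) = exp (-1 : ℤ) :=
    valQ hcub (fun x hx => (h0 k K L a b θ h6 hcub hsq x).1 hx) hQ h𝔓 hb ha hθ
  have hQ0 : Q ≠ 0 := hQ.ne_zero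
  have hD0 : D' ≠ 0 := by
    rintro rfl
    exact hD (dvd_zero Q)
  have hvK : v.valuation K (algebraMap k[X] K Q) = exp (-1 : ℤ) := by
    rw [HeightOneSpectrum.valuation_of_algebraMap]
    exact v.intValuation_singleton hQ0 hv
  have hvD : v.valuation K (algebraMap k[X] K D') = 1 := val_eq_one hv hD
  obtain ⟨j, hj1, hj2, hj3⟩ := cmap (K := K) (L := L) hQ hv h𝔓
  have hQE : algebraMap K (v.adicCompletion K) (algebraMap k[X] K Q) ≠ 0 := by
    rw [Ne, map_eq_zero, FaithfulSMul.algebraMap_eq_zero_iff]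
    exact hQ0
  have hDE : algebraMap K (v.adicCompletion K) (algebraMap k[X] K D') ≠ 0 := by
    rw [Ne, map_eq_zero, FaithfulSMul.algebraMap_eq_zero_iff]
    exact hD0
  have hαE : algebraMap L (𝔓.adicCompletion L) α ≠ 0 := by
    rw [Ne, map_eq_zero]; exact hne
  rcases loc_cases (O := O) hΘ hl with H | ⟨x, y, hxy, H⟩
  · obtain ⟨g, hg⟩ := H 𝔓 j hj1
    refine u0_of_sq1 (sq1_of 𝔓 α g ?_)
    rw [← hg, sub_self, map_zero]
    exact zero_lt_iff.2 ((Valuation.ne_zero_iff _).2 hαE)
  · obtain ⟨g, hg⟩ := H 𝔓 j hj1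
    set q := algebraMap K (v.adicCompletion K) (algebraMap k[X] K Q) with hq
    set d := algebraMap K (v.adicCompletion K) (algebraMap k[X] K D') with hd
    set a' := algebraMap K (v.adicCompletion K) (algebraMap k[X] K a) with ha'
    set b' := algebraMap K (v.adicCompletion K) (algebraMap k[X] K b) with hb'
    have hxy' : y ^ 2 = x ^ 3 + a' * (q * d) ^ 2 * x + b' * (q * d) ^ 3 := by
      rw [hxy]
      simp only [map_mul, map_pow, hq, hd, ha', hb']
    have va' : Valued.v a' ≤ 1 := by rw [ha', vx]; exact val_le_one a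
    have vb' : Valued.v b' ≤ 1 := by rw [hb', vx]; exact val_le_one b
    have vb1 : Valued.v b' < 1 := by rw [hb', vx]; exact (val_lt_one hv b).2 hb
    have vd : Valued.v d = 1 := by rw [hd, vx, hvD]
    have vq : Valued.v q = exp (-1 : ℤ) := by rw [hq, vx, hvK]
    have jq : j q = algebraMap L (𝔓.adicCompletion L) (algebraMap k[X] L Q) := by
      rw [hq, hj1, ← IsScalarTower.algebraMap_apply k[X] K L]
    have jd : j d = algebraMap L (𝔓.adicCompletion L) (algebraMap k[X] L D') := by
      rw [hd, hj1, ← IsScalarTower.algebraMap_apply k[X] K L]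
    set t := algebraMap L (𝔓.adicCompletion L) θ with ht
    have vt : Valued.v t = 1 := by rw [ht, vx, hθ]
    have hΘE : algebraMap L (𝔓.adicCompletion L) Θ = j q * j d * t := by
      rw [hΘd, map_mul, map_mul, map_mul, jq, jd]
    rw [hΘE] at hg
    by_cases hx : Valued.v x ≤ Valued.v q
    · -- `x = Q D' x'`
      set x' := x / (q * d) with hx'
      have ex : x = q * d * x' := by
        rw [hx']; field_simp
      have vx' : Valued.v x' ≤ 1 := by
        rw [hx', map_div₀, map_mul, vd, mul_one]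
        exact (div_le_one₀ (zero_lt_iff.2 ((Valuation.ne_zero_iff _).2 hQE))).2 hx
      obtain ⟨c, hc⟩ := resid x' vx'
      set c' := algebraMap K (v.adicCompletion K) (algebraMap k[X] K c) with hc'
      have hyx : y ^ 2 = (q * d) ^ 3 * (x' ^ 3 + a' * x' + b') := by
        rw [hxy', ex]; ring
      have hQc : Q ∣ c := by
        by_contra hn
        have h3 : Valued.v (c' ^ 3 + a' * c' + b') = 1 := by
          have e : c' ^ 3 + a' * c' + b' =
              algebraMap K (v.adicCompletion K) (algebraMap k[X] K (c ^ 3 + a * c + b)) := by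
            simp only [hc', ha', hb', map_add, map_mul, map_pow]
          rw [e, vx]
          refine val_eq_one hv ?_
          intro hdv
          have h4 : Q ∣ c * (c ^ 2 + a) := by
            have : c * (c ^ 2 + a) = (c ^ 3 + a * c + b) - b := by ring
            rw [this]
            exact dvd_sub hdv hb
          rcases hQ.prime.dvd_or_dvd h4 with h5 | h5
          · exact hn h5
          · exact ha c h5
        have vc' : Valued.v c' ≤ 1 := by rw [hc', vx]; exact val_le_one c
        have h4 : Valued.v (x' ^ 3 + a' * x' + b') = 1 := by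
          have e : x' ^ 3 + a' * x' + b' = (x' - c') * (x' ^ 2 + x' * c' + c' ^ 2 + a') +
              (c' ^ 3 + a' * c' + b') := by ring
          have h5 : Valued.v (x' ^ 2 + x' * c' + c' ^ 2 + a') ≤ 1 := by
            refine (Valuation.map_add _ _ _).trans (max_le ?_ va')
            refine (Valuation.map_add _ _ _).trans (max_le ?_ ?_)
            · refine (Valuation.map_add _ _ _).trans (max_le ?_ ?_)
              · rw [map_pow]; exact pow_le_one' vx' 2
              · rw [map_mul]; exact mul_le_one' vx' vc'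
            · rw [map_pow]; exact pow_le_one' vc' 2
          rw [e, Valuation.map_add_eq_of_lt_right _ (by
            rw [h3, map_mul]; exact mlt' hc h5), h3]
        have h5 := congrArg (Valued.v : v.adicCompletion K → WithZero (Multiplicative ℤ)) hyx
        rw [map_pow, map_mul, h4, mul_one, map_pow, map_mul, vd, mul_one, vq, ← exp_nsmul] at h5
        refine exp_odd (x := 1) (y := Valued.v y) (n := 3 • (-1 : ℤ)) ⟨-2, by norm_num⟩
          one_ne_zero ?_
        rw [one_pow, one_mul]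
        exact h5.symm
      have vx1 : Valued.v x' < 1 := by
        have e : x' = (x' - c') + c' := by ring
        rw [e]
        refine lt_of_le_of_lt (Valuation.map_add _ _ _) (max_lt hc ?_)
        rw [hc', vx]
        exact (val_lt_one hv c).2 hQc
      have jx1 : Valued.v (j x') < 1 := hj3 _ vx1
      obtain ⟨s0, hs0⟩ := sq_deg_two hcub hQ h𝔓 hb ha hθ (-D')
      refine u0_of_sq1' hne hvQ hθ ?_
      have ht0 : t ≠ 0 := by
        intro h
        rw [h, map_zero] at vt
        exact zero_ne_one vt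
      have hjd0 : j d ≠ 0 := by rw [Ne, map_eq_zero]; exact hDE
      have hjq0 : j q ≠ 0 := by rw [Ne, map_eq_zero]; exact hQE
      have vjd : Valued.v (j d) = 1 := by rw [jd, vx]; exact valO_eq_one hQ h𝔓 hD
      set β := algebraMap L (𝔓.adicCompletion L) (α * (algebraMap k[X] L Q * θ)) with hβ
      have hβ' : β = algebraMap L (𝔓.adicCompletion L) α * (j q * t) := by
        rw [hβ, map_mul, map_mul, jq]
      have hβ0 : β ≠ 0 := by
        rw [hβ']
        exact mul_ne_zero hαE (mul_ne_zero hjq0 ht0)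
      -- the relation
      have rel : β * (1 - j x' / t) = - (j d) * (g / j d) ^ 2 := by
        have hg' : (j q * j d * j x' - j q * j d * t) * algebraMap L (𝔓.adicCompletion L) α =
            g ^ 2 := by
          rw [← hg, ex, map_mul, map_mul]
        rw [hβ', div_pow, ← hg']
        field_simp
        ring
      have v1 : Valued.v (1 - j x' / t) = 1 := by
        rw [Valuation.map_sub_eq_of_lt_left _ (by
          rw [map_div₀, vt, div_one, map_one]; exact jx1), map_one]
      have v2 : Valued.v ((g / j d) ^ 2) = Valued.v β := by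
        have := congrArg (Valued.v : 𝔓.adicCompletion L → WithZero (Multiplicative ℤ)) rel
        rw [map_mul, v1, mul_one, map_mul, Valuation.map_neg, vjd, one_mul] at this
        exact this.symm
      refine sq1_of 𝔓 _ (algebraMap L (𝔓.adicCompletion L) s0 * (g / j d)) ?_
      rw [← hβ]
      have e : β - (algebraMap L (𝔓.adicCompletion L) s0 * (g / j d)) ^ 2 =
          β * (j x' / t) - (algebraMap L (𝔓.adicCompletion L) (s0 ^ 2 - algebraMap k[X] L (-D'))) *
            (g / j d) ^ 2 := by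
        have e2 : algebraMap L (𝔓.adicCompletion L) (s0 ^ 2 - algebraMap k[X] L (-D')) =
            algebraMap L (𝔓.adicCompletion L) s0 ^ 2 + j d := by
          rw [map_sub, map_pow, map_neg, map_neg, jd]; ring
        rw [e2]
        linear_combination rel
      rw [e]
      have vβ : 0 < Valued.v β := zero_lt_iff.2 ((Valuation.ne_zero_iff _).2 hβ0)
      refine lt_of_le_of_lt (Valuation.map_sub _ _ _) (max_lt ?_ ?_)
      · rw [map_mul, map_div₀, vt, div_one]
        calc _ < Valued.v β * 1 := mul_lt_mul_of_pos_left jx1 vβ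
          _ = _ := mul_one _
      · rw [map_mul, v2, vx]
        calc _ < 1 * Valued.v β := mul_lt_mul_of_pos_right hs0 vβ
          _ = _ := one_mul _
    · rw [not_le] at hx
      have hx0 : x ≠ 0 := by
        rintro rfl
        rw [map_zero] at hx
        exact absurd hx (by simp)
      set ξ := q / x with hξ
      have vξ : Valued.v ξ < 1 := by
        rw [hξ, map_div₀]
        exact (div_lt_one₀ (zero_lt_iff.2 ((Valuation.ne_zero_iff _).2 hx0))).2 hx
      have eq : q = ξ * x := by rw [hξ]; field_simp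
      set ε := a' * d ^ 2 * ξ ^ 2 + b' * d ^ 3 * ξ ^ 3 with hε
      have vε : Valued.v ε < 1 := by
        refine lt_of_le_of_lt (Valuation.map_add _ _ _) (max_lt ?_ ?_)
        · rw [map_mul, map_mul, map_pow, vd, one_pow, mul_one, map_pow]
          exact mlt va' (pow_lt_one₀ zero_le vξ two_ne_zero)
        · rw [map_mul, map_mul, map_pow, vd, one_pow, mul_one, map_pow]
          exact mlt vb' (pow_lt_one₀ zero_le vξ three_ne_zero)
      have hy : y ^ 2 = x ^ 3 * (1 + ε) := by
        rw [hxy', hε, eq]; ring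
      have v1 : Valued.v (1 + ε) = 1 := by
        rw [Valuation.map_add_eq_of_lt_left _ (by rw [map_one]; exact vε), map_one]
      have h1ε : (1 + ε) ≠ 0 := by
        intro h
        rw [h, map_zero] at v1
        exact zero_ne_one v1
      have hy0 : y ≠ 0 := by
        rintro rfl
        rw [zero_pow two_ne_zero] at hy
        exact mul_ne_zero (pow_ne_zero 3 hx0) h1ε hy.symm
      have hjx0 : j x ≠ 0 := by rw [Ne, map_eq_zero]; exact hx0
      have hjy0 : j y ≠ 0 := by rw [Ne, map_eq_zero]; exact hy0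
      have hjy : j y ^ 2 = j x ^ 3 * (1 + j ε) := by
        rw [← map_pow, hy, map_mul, map_pow, map_add, map_one]
      have vjε : Valued.v (j ε) < 1 := hj3 _ vε
      have vj1 : Valued.v (1 + j ε) = 1 := by
        rw [Valuation.map_add_eq_of_lt_left _ (by rw [map_one]; exact vjε), map_one]
      have hj1ε : (1 + j ε) ≠ 0 := by
        intro h
        rw [h, map_zero] at vj1
        exact zero_ne_one vj1
      set ε' := - (j d * t * j ξ) with hε'
      have vε' : Valued.v ε' < 1 := by
        rw [hε', Valuation.map_neg, map_mul, map_mul, vt, mul_one]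
        refine mlt (hj2 _ vd.le) (hj3 _ vξ)
      have hg' : j x * (1 + ε') * algebraMap L (𝔓.adicCompletion L) α = g ^ 2 := by
        rw [← hg, hε', eq, map_mul]; ring
      refine u0_of_sq1 (sq1_of 𝔓 α (g * j x / j y) ?_)
      have e : algebraMap L (𝔓.adicCompletion L) α - (g * j x / j y) ^ 2 =
          algebraMap L (𝔓.adicCompletion L) α * ((j ε - ε') / (1 + j ε)) := by
        rw [div_pow, mul_pow, ← hg', hjy]
        field_simp
        ring
      rw [e, map_mul, map_div₀, vj1, div_one]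
      calc _ < Valued.v (algebraMap L (𝔓.adicCompletion L) α) * 1 :=
            mul_lt_mul_of_pos_left (lt_of_le_of_lt (Valuation.map_sub _ _ _)
              (max_lt vjε vε')) (zero_lt_iff.2 ((Valuation.ne_zero_iff _).2 hαE))
        _ = _ := mul_one _

end Pool.Agent.N704.PP
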