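import Pool.Agent.N874.PP.Lat
import Pool.Agent.TH115.TC.Compl

/-!
# Local analysis of points: approximation in the completions, uniqueness of primes

Project PP (helper874), parts PP-LOC1, PP-LOC2 (helper704).
-/

set_option autoImplicit false
set_option linter.all false

open Polynomial IsDedekindDomain WithZero
open Pool.Agent.N874.PP
open scoped Classical

namespace Pool.Agent.N704.PP

section compl

variable {R F : Type} [CommRing R] [IsDedekindDomain R] [Field F] [Algebra R F]
  [IsFractionRing R F] (v : HeightOneSpectrum R)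

theorem vx (x : F) : Valued.v (algebraMap F (v.adicCompletion F) x) = v.valuation F x :=
  HeightOneSpectrum.valuedAdicCompletion_eq_valuation' v x

theorem near_one (y : v.adicCompletion F) :
    ∃ x : F, Valued.v (y - algebraMap F (v.adicCompletion F) x) < 1 := by
  have hU : {z : v.adicCompletion F | Valued.v z < 1} ∈ nhds (0 : v.adicCompletion F) := by
    rw [Valued.mem_nhds_zero]
    exact ⟨1, fun z hz => by
      have := (Valuation.restrict_lt_iff_lt_embedding _).1 hz
      simpa using this⟩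
  have ht : Filter.Tendsto (fun z : v.adicCompletion F => y - z) (nhds y) (nhds 0) := by
    have h5 : Filter.Tendsto (fun z : v.adicCompletion F => y - z) (nhds y) (nhds (y - y)) :=
      tendsto_const_nhds.sub Filter.tendsto_id
    rwa [sub_self] at h5
  obtain ⟨z, hz, x, rfl⟩ := mem_closure_iff_nhds.1
    (HeightOneSpectrum.denseRange_algebraMap F v y) _ (ht hU)
  exact ⟨x, hz⟩

theorem near (y : v.adicCompletion F) {γ : WithZero (Multiplicative ℤ)} (hγ : γ ≠ 0) :
    ∃ x : F, Valued.v (y - algebraMap F (v.adicCompletion F) x) < γ := by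
  obtain ⟨c, hc⟩ := v.valuation_surjective F γ
  have hc0 : c ≠ 0 := by
    rintro rfl
    rw [map_zero] at hc
    exact hγ hc.symm
  have hc1 : algebraMap F (v.adicCompletion F) c ≠ 0 := by
    rw [Ne, map_eq_zero]; exact hc0
  obtain ⟨x, hx⟩ := near_one v (y / algebraMap F (v.adicCompletion F) c)
  refine ⟨x * c, ?_⟩
  have e : y - algebraMap F (v.adicCompletion F) (x * c) =
      (y / algebraMap F (v.adicCompletion F) c - algebraMap F (v.adicCompletion F) x) *
        algebraMap F (v.adicCompletion F) c := by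
    rw [map_mul]
    field_simp
  rw [e, map_mul, vx, hc]
  calc _ < 1 * γ := mul_lt_mul_of_pos_right hx (zero_lt_iff.2 hγ)
    _ = γ := one_mul γ

theorem sq1_of (α : F) (g : v.adicCompletion F)
    (h : Valued.v (algebraMap F (v.adicCompletion F) α - g ^ 2) <
      Valued.v (algebraMap F (v.adicCompletion F) α)) :
    ∃ s : F, v.valuation F (α - s ^ 2) < v.valuation F α := by
  have h1 : Valued.v (g ^ 2) = Valued.v (algebraMap F (v.adicCompletion F) α) := by
    have := Valuation.map_sub_eq_of_lt_left (Valued.v : Valuation (v.adicCompletion F) _)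
      (x := algebraMap F (v.adicCompletion F) α)
      (y := algebraMap F (v.adicCompletion F) α - g ^ 2) h
    rwa [sub_sub_cancel] at this
  have h0 : Valued.v g ≠ 0 := by
    intro h0
    rw [map_pow, h0, zero_pow two_ne_zero] at h1
    rw [← h1] at h
    exact absurd h (by simp)
  obtain ⟨s, hs⟩ := near v g h0
  refine ⟨s, ?_⟩
  rw [← vx, ← vx, map_sub, map_pow]
  have e : algebraMap F (v.adicCompletion F) α - algebraMap F (v.adicCompletion F) s ^ 2 =
      (algebraMap F (v.adicCompletion F) α - g ^ 2) +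
      (g - algebraMap F (v.adicCompletion F) s) * (g + algebraMap F (v.adicCompletion F) s) := by
    ring
  rw [e]
  refine lt_of_le_of_lt (Valuation.map_add _ _ _) (max_lt h ?_)
  have h2 : Valued.v (g + algebraMap F (v.adicCompletion F) s) ≤ Valued.v g := by
    have e2 : g + algebraMap F (v.adicCompletion F) s = 2 * g -
        (g - algebraMap F (v.adicCompletion F) s) := by ring
    rw [e2]
    refine (Valuation.map_sub _ _ _).trans (max_le ?_ hs.le)
    rw [two_mul]
    exact (Valuation.map_add _ _ _).trans (max_le le_rfl le_rfl)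
  rw [map_mul, ← h1, map_pow, pow_two]
  calc _ ≤ Valued.v (g - algebraMap F (v.adicCompletion F) s) * Valued.v g :=
        mul_le_mul' le_rfl h2
    _ < Valued.v g * Valued.v g := mul_lt_mul_of_pos_right hs (zero_lt_iff.2 h0)

theorem ev_of (α : F) (g : v.adicCompletion F)
    (h : Valued.v (algebraMap F (v.adicCompletion F) α) = Valued.v g ^ 2) :
    Ev v α := by
  obtain ⟨y, hy⟩ := v.valuation_surjective F (Valued.v g)
  exact ⟨y, by rw [← vx, h, hy]⟩

theorem ev_of_sq1 {α : F} (h : Sq1 v α) : Ev v α := by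
  obtain ⟨s, hs⟩ := h
  refine ⟨s, ?_⟩
  have := Valuation.map_sub_eq_of_lt_left (v.valuation F) (x := α) (y := α - s ^ 2) hs
  rw [sub_sub_cancel, map_pow] at this
  exact this.symm

end compl

section ov

variable {k K L O : Type} [Field k] [Field K] [Algebra k[X] K] [IsFractionRing k[X] K]
  [Field L] [Algebra K L] [Algebra k[X] L] [IsScalarTower k[X] K L] [CommRing O]
  [IsDedekindDomain O] [Algebra O L] [IsFractionRing O L] [Algebra k[X] O]
  [IsScalarTower k[X] O L]

theorem val_lt_one {P : k[X]} {v : HeightOneSpectrum k[X]} (hv : v.asIdeal = Ideal.span {P})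
    (c : k[X]) : v.valuation K (algebraMap k[X] K c) < 1 ↔ P ∣ c := by
  rw [HeightOneSpectrum.valuation_lt_one_iff_mem, hv, Ideal.mem_span_singleton]

theorem val_le_one {v : HeightOneSpectrum k[X]}
    (c : k[X]) : v.valuation K (algebraMap k[X] K c) ≤ 1 := v.valuation_le_one c

theorem comap_eq {P : k[X]} (hP : Irreducible P) {𝔓 : HeightOneSpectrum O} (h : Ov P 𝔓) :
    𝔓.asIdeal.comap (algebraMap k[X] O) = Ideal.span {P} := by
  have hm : (Ideal.span {P}).IsMaximal := PrincipalIdealRing.isMaximal_of_irreducible hP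
  refine (hm.eq_of_le ?_ ?_).symm
  · exact Ideal.comap_ne_top _ 𝔓.isPrime.ne_top
  · rw [Ideal.span_singleton_le_iff_mem]
    exact h

theorem mem_iff {P : k[X]} (hP : Irreducible P) {𝔓 : HeightOneSpectrum O} (h : Ov P 𝔓)
    (c : k[X]) : algebraMap k[X] O c ∈ 𝔓.asIdeal ↔ P ∣ c := by
  rw [← Ideal.mem_comap, comap_eq hP h, Ideal.mem_span_singleton]

theorem valO_lt_one {P : k[X]} (hP : Irreducible P) {𝔓 : HeightOneSpectrum O} (h : Ov P 𝔓)
    (c : k[X]) : 𝔓.valuation L (algebraMap k[X] L c) < 1 ↔ P ∣ c := by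
  rw [IsScalarTower.algebraMap_apply k[X] O L, HeightOneSpectrum.valuation_lt_one_iff_mem,
    mem_iff hP h]

theorem valO_le_one (𝔓 : HeightOneSpectrum O)
    (c : k[X]) : 𝔓.valuation L (algebraMap k[X] L c) ≤ 1 := by
  rw [IsScalarTower.algebraMap_apply k[X] O L]
  exact 𝔓.valuation_le_one _

theorem valO_eq_one {P : k[X]} (hP : Irreducible P) {𝔓 : HeightOneSpectrum O} (h : Ov P 𝔓)
    {c : k[X]} (hc : ¬ P ∣ c) : 𝔓.valuation L (algebraMap k[X] L c) = 1 := by
  refine le_antisymm (valO_le_one 𝔓 c) ?_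
  rw [← not_lt, valO_lt_one hP h]
  exact hc

theorem val_eq_one {P : k[X]} {v : HeightOneSpectrum k[X]} (hv : v.asIdeal = Ideal.span {P})
    {c : k[X]} (hc : ¬ P ∣ c) : v.valuation K (algebraMap k[X] K c) = 1 := by
  refine le_antisymm (val_le_one c) ?_
  rw [← not_lt, val_lt_one hv]
  exact hc

theorem field_le {P : k[X]} (hP : Irreducible P) {v : HeightOneSpectrum k[X]}
    (hv : v.asIdeal = Ideal.span {P}) {𝔓 : HeightOneSpectrum O} (h : Ov P 𝔓) (x : K)
    (hx : v.valuation K x ≤ 1) : 𝔓.valuation L (algebraMap K L x) ≤ 1 := by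
  obtain ⟨n, ⟨d, hd⟩, hnd⟩ := v.exists_primeCompl_mul_eq_of_integer x hx
  have hd' : ¬ P ∣ d := by
    intro h1
    apply hd
    show d ∈ v.asIdeal
    rw [hv, Ideal.mem_span_singleton]
    exact h1
  have h2 : 𝔓.valuation L (algebraMap k[X] L d) = 1 := valO_eq_one hP h hd'
  have h3 : algebraMap K L x * algebraMap k[X] L d = algebraMap k[X] L n := by
    rw [IsScalarTower.algebraMap_apply k[X] K L, IsScalarTower.algebraMap_apply k[X] K L,
      ← map_mul, hnd]
  have h4 := congrArg (𝔓.valuation L) h3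
  rw [map_mul, h2, mul_one] at h4
  rw [h4]
  exact valO_le_one 𝔓 n

theorem field_lt {P : k[X]} (hP : Irreducible P) {v : HeightOneSpectrum k[X]}
    (hv : v.asIdeal = Ideal.span {P}) {𝔓 : HeightOneSpectrum O} (h : Ov P 𝔓) (x : K)
    (hx : v.valuation K x < 1) : 𝔓.valuation L (algebraMap K L x) < 1 := by
  obtain ⟨n, ⟨d, hd⟩, hnd⟩ := v.exists_primeCompl_mul_eq_of_integer x hx.le
  have hd' : ¬ P ∣ d := by
    intro h1
    apply hd
    show d ∈ v.asIdeal
    rw [hv, Ideal.mem_span_singleton]
    exact h1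
  have h2 : 𝔓.valuation L (algebraMap k[X] L d) = 1 := valO_eq_one hP h hd'
  have h2' : v.valuation K (algebraMap k[X] K d) = 1 := val_eq_one hv hd'
  have h3 : algebraMap K L x * algebraMap k[X] L d = algebraMap k[X] L n := by
    rw [IsScalarTower.algebraMap_apply k[X] K L, IsScalarTower.algebraMap_apply k[X] K L,
      ← map_mul, hnd]
  have h4 := congrArg (𝔓.valuation L) h3
  rw [map_mul, h2, mul_one] at h4
  rw [h4, valO_lt_one hP h]
  have h5 := congrArg (v.valuation K) hnd
  rw [map_mul, h2', mul_one] at h5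
  rw [← val_lt_one (K := K) hv, ← h5]
  exact hx

/-- The map of the completions. -/
theorem cmap {P : k[X]} (hP : Irreducible P) {v : HeightOneSpectrum k[X]}
    (hv : v.asIdeal = Ideal.span {P}) {𝔓 : HeightOneSpectrum O} (h : Ov P 𝔓) :
    ∃ j : v.adicCompletion K →+* 𝔓.adicCompletion L,
    (∀ x : K, j (algebraMap K (v.adicCompletion K) x) =
      algebraMap L (𝔓.adicCompletion L) (algebraMap K L x)) ∧
    (∀ y, Valued.v y ≤ 1 → Valued.v (j y) ≤ 1) ∧ (∀ y, Valued.v y < 1 → Valued.v (j y) < 1) :=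
  Pool.Agent.TH115.GD.exists_compl_map v 𝔓 (algebraMap K L) (field_le hP hv h)
    (field_lt hP hv h)

theorem eval_dvd {v : HeightOneSpectrum k[X]} {𝔓 : HeightOneSpectrum O}
    (j : v.adicCompletion K →+* 𝔓.adicCompletion L)
    (hj : ∀ x : K, j (algebraMap K (v.adicCompletion K) x) =
      algebraMap L (𝔓.adicCompletion L) (algebraMap K L x)) {A B : k[X]} {Θ : L}
    (hΘ : Θ ^ 3 + algebraMap k[X] L A * Θ + algebraMap k[X] L B = 0)
    {p : (v.adicCompletion K)[X]}
    (hp : X ^ 3 + C (algebraMap K (v.adicCompletion K) (algebraMap k[X] K A)) * X +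
      C (algebraMap K (v.adicCompletion K) (algebraMap k[X] K B)) ∣ p) :
    p.eval₂ j (algebraMap L (𝔓.adicCompletion L) Θ) = 0 := by
  obtain ⟨q, rfl⟩ := hp
  rw [eval₂_mul]
  have e : eval₂ j (algebraMap L (𝔓.adicCompletion L) Θ)
      (X ^ 3 + C (algebraMap K (v.adicCompletion K) (algebraMap k[X] K A)) * X +
      C (algebraMap K (v.adicCompletion K) (algebraMap k[X] K B))) = 0 := by
    simp only [eval₂_add, eval₂_mul, eval₂_pow, eval₂_X, eval₂_C]
    rw [hj, hj, ← IsScalarTower.algebraMap_apply k[X] K L,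
      ← IsScalarTower.algebraMap_apply k[X] K L, ← map_pow, ← map_mul, ← map_add, ← map_add, hΘ,
      map_zero]
  rw [e, zero_mul]

theorem eval_h {v : HeightOneSpectrum k[X]} {𝔓 : HeightOneSpectrum O}
    (j : v.adicCompletion K →+* 𝔓.adicCompletion L)
    (hj : ∀ x : K, j (algebraMap K (v.adicCompletion K) x) =
      algebraMap L (𝔓.adicCompletion L) (algebraMap K L x)) (Θ : L) (h : K[X]) :
    (h.map (algebraMap K (v.adicCompletion K))).eval₂ j (algebraMap L (𝔓.adicCompletion L) Θ) =
      algebraMap L (𝔓.adicCompletion L) (aeval Θ h) := by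
  rw [eval₂_map]
  have e : j.comp (algebraMap K (v.adicCompletion K)) =
      (algebraMap L (𝔓.adicCompletion L)).comp (algebraMap K L) := by
    exact RingHom.ext fun x => hj x
  rw [e, ← Polynomial.hom_eval₂]
  rfl

/-- The two cases of `PolyLoc` over the completion of `L`. -/
theorem loc_cases {v : HeightOneSpectrum k[X]} {A B : k[X]} {Θ : L}
    (hΘ : Θ ^ 3 + algebraMap k[X] L A * Θ + algebraMap k[X] L B = 0) {h : K[X]}
    (hl : PolyLoc v A B h) :
    (∀ (𝔓 : HeightOneSpectrum O) (j : v.adicCompletion K →+* 𝔓.adicCompletion L)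
      (_ : ∀ x : K, j (algebraMap K (v.adicCompletion K) x) =
      algebraMap L (𝔓.adicCompletion L) (algebraMap K L x)), ∃ g : 𝔓.adicCompletion L,
      algebraMap L (𝔓.adicCompletion L) (aeval Θ h) = g ^ 2) ∨
    ∃ x y : v.adicCompletion K,
    y ^ 2 = x ^ 3 + algebraMap K (v.adicCompletion K) (algebraMap k[X] K A) * x +
      algebraMap K (v.adicCompletion K) (algebraMap k[X] K B) ∧
    (∀ (𝔓 : HeightOneSpectrum O) (j : v.adicCompletion K →+* 𝔓.adicCompletion L)
      (_ : ∀ x : K, j (algebraMap K (v.adicCompletion K) x) =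
      algebraMap L (𝔓.adicCompletion L) (algebraMap K L x)), ∃ g : 𝔓.adicCompletion L,
      (j x - algebraMap L (𝔓.adicCompletion L) Θ) *
        algebraMap L (𝔓.adicCompletion L) (aeval Θ h) = g ^ 2) := by
  rcases hl with ⟨g, hg⟩ | ⟨x, y, hxy, g, hg⟩
  · left
    intro 𝔓 j hj
    refine ⟨g.eval₂ j (algebraMap L (𝔓.adicCompletion L) Θ), ?_⟩
    have := eval_dvd j hj hΘ hg
    rw [eval₂_sub, eval₂_pow, eval_h j hj, sub_eq_zero] at this
    exact this
  · right
    refine ⟨x, y, hxy, ?_⟩
    intro 𝔓 j hj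
    refine ⟨g.eval₂ j (algebraMap L (𝔓.adicCompletion L) Θ), ?_⟩
    have := eval_dvd j hj hΘ hg
    rw [eval₂_sub, eval₂_pow, eval₂_mul, eval₂_sub, eval₂_C, eval₂_X, eval_h j hj,
      sub_eq_zero] at this
    exact this

/-- Integral elements of the completion are polynomials modulo `P`. -/
theorem resid {v : HeightOneSpectrum k[X]} (x : v.adicCompletion K) (hx : Valued.v x ≤ 1) :
    ∃ c : k[X], Valued.v (x - algebraMap K (v.adicCompletion K) (algebraMap k[X] K c)) < 1 := by
  obtain ⟨x0, hx0⟩ := near_one v x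
  have h1 : v.valuation K x0 ≤ 1 := by
    rw [← vx]
    have e : algebraMap K (v.adicCompletion K) x0 =
        x - (x - algebraMap K (v.adicCompletion K) x0) := by ring
    rw [e]
    exact (Valuation.map_sub _ _ _).trans (max_le hx hx0.le)
  obtain ⟨c, hc⟩ := v.exists_valuation_sub_lt_of_integer h1 1
  refine ⟨c, ?_⟩
  have e : x - algebraMap K (v.adicCompletion K) (algebraMap k[X] K c) =
      (x - algebraMap K (v.adicCompletion K) x0) -
      algebraMap K (v.adicCompletion K) (algebraMap k[X] K c - x0) := by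
    rw [map_sub]; ring
  rw [e]
  refine lt_of_le_of_lt (Valuation.map_sub _ _ _) (max_lt hx0 ?_)
  rw [vx]
  exact_mod_cast hc

theorem exists_inv_mod {P : k[X]} (hP : Irreducible P) {D : k[X]} (hD : ¬ P ∣ D) :
    ∃ D' : k[X], P ∣ 1 - D * D' := by
  obtain ⟨u, w, h⟩ := (hP.coprime_iff_not_dvd.2 hD : IsCoprime P D)
  exact ⟨w, u, by linear_combination h.symm⟩

/-- Integral elements of the completion are `D c` modulo `P`. -/
theorem resid_mul {P : k[X]} (hP : Irreducible P) {v : HeightOneSpectrum k[X]}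
    (hv : v.asIdeal = Ideal.span {P}) {D : k[X]} (hD : ¬ P ∣ D)
    (x : v.adicCompletion K) (hx : Valued.v x ≤ 1) :
    ∃ c : k[X], Valued.v (x - algebraMap K (v.adicCompletion K)
      (algebraMap k[X] K (D * c))) < 1 := by
  obtain ⟨c, hc⟩ := resid x hx
  obtain ⟨D', hD'⟩ := exists_inv_mod hP hD
  refine ⟨D' * c, ?_⟩
  have e : x - algebraMap K (v.adicCompletion K) (algebraMap k[X] K (D * (D' * c))) =
      (x - algebraMap K (v.adicCompletion K) (algebraMap k[X] K c)) +
      algebraMap K (v.adicCompletion K) (algebraMap k[X] K ((1 - D * D') * c)) := by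
    have : D * (D' * c) = c - (1 - D * D') * c := by ring
    rw [this, map_sub, map_sub]; ring
  rw [e]
  refine lt_of_le_of_lt (Valuation.map_add _ _ _) (max_lt hc ?_)
  rw [vx, val_lt_one hv]
  exact Dvd.dvd.mul_right hD' c

end ov

end Pool.Agent.N704.PP
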