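import Pool.Agent.N704.PP.Loc

/-!
# Local analysis at the primes not dividing `D`

Project PP (helper874), part PP-LOC1 (helper704).
-/

set_option autoImplicit false
set_option linter.all false

open Polynomial IsDedekindDomain WithZero
open Pool.Agent.N874.PP
open scoped Classical

namespace Pool.Agent.N704.PP

section ov

variable {k K L O : Type} [Field k] [Field K] [Algebra k[X] K] [IsFractionRing k[X] K]
  [Field L] [Algebra K L] [Algebra k[X] L] [IsScalarTower k[X] K L] [CommRing O]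
  [IsDedekindDomain O] [Algebra O L] [IsFractionRing O L] [Algebra k[X] O]
  [IsScalarTower k[X] O L]

theorem val_int [IsIntegralClosure O k[X] L] (𝔓 : HeightOneSpectrum O) {x : L}
    (hx : IsIntegral k[X] x) : 𝔓.valuation L x ≤ 1 := by
  obtain ⟨y, rfl⟩ := (IsIntegralClosure.isIntegral_iff (A := O)).1 hx
  exact 𝔓.valuation_le_one y

theorem theta_int {a b : k[X]} {θ : L} (h : IsCub K a b θ) : IsIntegral k[X] θ := by
  refine ⟨X ^ 3 + C a * X + C b, ?_, ?_⟩
  · have : (X ^ 3 + C a * X + C b : k[X][X]) = X ^ 3 + (C a * X + C b) := by ring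
    rw [this]
    refine monic_X_pow_add ?_
    compute_degree
    norm_num
  · rw [eval₂_add, eval₂_add, eval₂_mul, eval₂_pow, eval₂_X, eval₂_C, eval₂_C]
    exact h.root

theorem uniq [IsIntegralClosure O k[X] L] {θ : L}
    (hint : ∀ x : L, IsIntegral k[X] x → ∃ v : Fin 3 → k[X], Crd θ v x)
    {P : k[X]} (hP : Irreducible P) {𝔓 𝔓' : HeightOneSpectrum O} (h : Ov P 𝔓) (h' : Ov P 𝔓')
    {c : k[X]} (hc : 𝔓.valuation L (θ - algebraMap k[X] L c) < 1)
    (hc' : 𝔓'.valuation L (θ - algebraMap k[X] L c) < 1) : 𝔓 = 𝔓' := by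
  have hle : 𝔓.asIdeal ≤ 𝔓'.asIdeal := by
    intro z hz
    obtain ⟨u, hu⟩ := hint (algebraMap O L z)
      ((IsIntegralClosure.isIntegral_iff (A := O)).2 ⟨z, rfl⟩)
    have hu' : algebraMap O L z = algebraMap k[X] L (u 0) + algebraMap k[X] L (u 1) * θ +
      algebraMap k[X] L (u 2) * θ ^ 2 := hu
    set n : k[X] := u 0 + u 1 * c + u 2 * c ^ 2 with hn
    have e : algebraMap O L z = algebraMap k[X] L n + (θ - algebraMap k[X] L c) *
        (algebraMap k[X] L (u 1) + algebraMap k[X] L (u 2) *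
          ((θ - algebraMap k[X] L c) + 2 * algebraMap k[X] L c)) := by
      rw [hu', hn, map_add, map_add, map_mul, map_mul, map_pow]; ring
    have small : ∀ 𝔮 : HeightOneSpectrum O, 𝔮.valuation L (θ - algebraMap k[X] L c) < 1 →
        𝔮.valuation L ((θ - algebraMap k[X] L c) *
        (algebraMap k[X] L (u 1) + algebraMap k[X] L (u 2) *
          ((θ - algebraMap k[X] L c) + 2 * algebraMap k[X] L c))) < 1 := by
      intro 𝔮 hq
      have h1 : 𝔮.valuation L ((algebraMap k[X] L (u 1) + algebraMap k[X] L (u 2) *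
          ((θ - algebraMap k[X] L c) + 2 * algebraMap k[X] L c))) ≤ 1 := by
        refine (Valuation.map_add _ _ _).trans (max_le (valO_le_one 𝔮 _) ?_)
        rw [map_mul]
        refine mul_le_one' (valO_le_one 𝔮 _) ?_
        refine (Valuation.map_add _ _ _).trans (max_le hq.le ?_)
        have : (2 : L) * algebraMap k[X] L c = algebraMap k[X] L (2 * c) := by
          rw [map_mul, map_ofNat]
        rw [this]
        exact valO_le_one 𝔮 _
      rw [map_mul]
      exact mul_lt_one_of_lt_of_le hq h1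
    have h1 : 𝔓.valuation L (algebraMap O L z) < 1 :=
      (HeightOneSpectrum.valuation_lt_one_iff_mem 𝔓 z).2 hz
    have h2 : P ∣ n := by
      rw [← valO_lt_one (L := L) hP h]
      have e2 : algebraMap k[X] L n = algebraMap O L z - (θ - algebraMap k[X] L c) *
        (algebraMap k[X] L (u 1) + algebraMap k[X] L (u 2) *
          ((θ - algebraMap k[X] L c) + 2 * algebraMap k[X] L c)) := by rw [e]; ring
      rw [e2]
      exact lt_of_le_of_lt (Valuation.map_sub _ _ _) (max_lt h1 (small 𝔓 hc))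
    have h3 : 𝔓'.valuation L (algebraMap O L z) < 1 := by
      rw [e]
      exact lt_of_le_of_lt (Valuation.map_add _ _ _)
        (max_lt ((valO_lt_one (L := L) hP h' n).2 h2) (small 𝔓' hc'))
    exact (HeightOneSpectrum.valuation_lt_one_iff_mem 𝔓' z).1 h3
  exact HeightOneSpectrum.ext (𝔓.isMaximal.eq_of_le 𝔓'.isPrime.ne_top hle)

theorem hTheta {a b : k[X]} {θ : L} (h : IsCub K a b θ) (D : k[X]) :
    (algebraMap k[X] L D * θ) ^ 3 + algebraMap k[X] L (a * D ^ 2) * (algebraMap k[X] L D * θ) +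
      algebraMap k[X] L (b * D ^ 3) = 0 := by
  have := h.root
  rw [map_mul, map_mul, map_pow, map_pow]
  linear_combination (algebraMap k[X] L D) ^ 3 * this

theorem big {v : HeightOneSpectrum k[X]} {x y : v.adicCompletion K} {A B : k[X]}
    (hxy : y ^ 2 = x ^ 3 + algebraMap K (v.adicCompletion K) (algebraMap k[X] K A) * x +
      algebraMap K (v.adicCompletion K) (algebraMap k[X] K B)) (hx : 1 < Valued.v x) :
    Valued.v y ^ 2 = Valued.v x ^ 3 := by
  have h0 : Valued.v x ≠ 0 := (zero_lt_one.trans hx).ne'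
  have h1 : Valued.v (algebraMap K (v.adicCompletion K) (algebraMap k[X] K A) * x +
      algebraMap K (v.adicCompletion K) (algebraMap k[X] K B)) < Valued.v (x ^ 3) := by
    have h2 : Valued.v (algebraMap K (v.adicCompletion K) (algebraMap k[X] K A) * x +
      algebraMap K (v.adicCompletion K) (algebraMap k[X] K B)) ≤ Valued.v x := by
      refine (Valuation.map_add _ _ _).trans (max_le ?_ ?_)
      · rw [map_mul, vx]
        calc _ ≤ 1 * Valued.v x := mul_le_mul' (val_le_one A) le_rfl
          _ = _ := one_mul _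
      · rw [vx]
        exact (val_le_one B).trans hx.le
    refine lt_of_le_of_lt h2 ?_
    rw [map_pow]
    calc Valued.v x = Valued.v x ^ 1 := (pow_one _).symm
      _ < Valued.v x ^ 3 := pow_lt_pow_right₀ hx (by norm_num)
  have h3 := congrArg (Valued.v : v.adicCompletion K → WithZero (Multiplicative ℤ)) hxy
  rw [add_assoc, map_pow, Valuation.map_add_eq_of_lt_left _ h1, map_pow] at h3
  exact h3

theorem j_unit {v : HeightOneSpectrum k[X]} {𝔓 : HeightOneSpectrum O}
    (j : v.adicCompletion K →+* 𝔓.adicCompletion L)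
    (hj : ∀ y, Valued.v y ≤ 1 → Valued.v (j y) ≤ 1) {y : v.adicCompletion K}
    (hy : Valued.v y = 1) : Valued.v (j y) = 1 := by
  refine le_antisymm (hj y hy.le) ?_
  have h0 : y ≠ 0 := by
    rintro rfl
    rw [map_zero] at hy
    exact zero_ne_one hy
  have h1 : Valued.v (j y⁻¹) ≤ 1 := hj _ (by rw [map_inv₀, hy, inv_one])
  have h2 : Valued.v (j y) * Valued.v (j y⁻¹) = 1 := by
    rw [← map_mul, ← map_mul, mul_inv_cancel₀ h0, map_one, map_one]
  calc 1 = Valued.v (j y) * Valued.v (j y⁻¹) := h2.symm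
    _ ≤ Valued.v (j y) * 1 := mul_le_mul' le_rfl h1
    _ = Valued.v (j y) := mul_one _

theorem j_big {v : HeightOneSpectrum k[X]} {𝔓 : HeightOneSpectrum O}
    (j : v.adicCompletion K →+* 𝔓.adicCompletion L)
    (hj : ∀ y, Valued.v y < 1 → Valued.v (j y) < 1) {y : v.adicCompletion K}
    (hy : 1 < Valued.v y) : 1 < Valued.v (j y) := by
  have h0 : y ≠ 0 := by
    rintro rfl
    rw [map_zero] at hy
    exact absurd hy (by simp)
  have h1 : Valued.v (j y⁻¹) < 1 := hj _ (by
    rw [map_inv₀]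
    exact inv_lt_one_of_one_lt₀ hy)
  rw [map_inv₀, map_inv₀] at h1
  have h2 : Valued.v (j y) ≠ 0 := by
    rw [Valuation.ne_zero_iff, Ne, map_eq_zero]; exact h0
  exact (inv_lt_one₀ (zero_lt_iff.2 h2)).1 h1

end ov

theorem loc1 (h0 : S_INT) (h1 : S_PAR) : S_LOC1 := by
  intro k K L O _ _ _ _ _ _ _ _ _ _ _ _ _ _ _ _ a b θ h6 hcub hsq P v hP hv D h hD hne hN hl 𝔓 h𝔓
  have hΘ := hTheta hcub D
  set Θ : L := algebraMap k[X] L D * θ with hΘd
  set α : L := aeval Θ h with hα
  have hθ1 : ∀ 𝔮 : HeightOneSpectrum O, 𝔮.valuation L θ ≤ 1 := fun 𝔮 => val_int 𝔮 (theta_int hcub)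
  rcases loc_cases (O := O) hΘ hl with H | ⟨x, y, hxy, H⟩
  · obtain ⟨j, hj1, hj2, hj3⟩ := cmap (K := K) (L := L) hP hv h𝔓
    obtain ⟨g, hg⟩ := H 𝔓 j hj1
    exact ev_of 𝔓 α g (by rw [hg, map_pow])
  · by_cases hx : Valued.v x ≤ 1
    · obtain ⟨c, hc⟩ := resid_mul hP hv hD x hx
      have key : ∀ 𝔮 : HeightOneSpectrum O, Ov P 𝔮 →
          ¬ (𝔮.valuation L (θ - algebraMap k[X] L c) < 1) → Ev 𝔮 α := by
        intro 𝔮 hq hlt
        obtain ⟨j, hj1, hj2, hj3⟩ := cmap (K := K) (L := L) hP hv hq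
        obtain ⟨g, hg⟩ := H 𝔮 j hj1
        have e : j x - algebraMap L (𝔮.adicCompletion L) Θ =
            j (x - algebraMap K (v.adicCompletion K) (algebraMap k[X] K (D * c))) -
            algebraMap L (𝔮.adicCompletion L)
              (algebraMap k[X] L D * (θ - algebraMap k[X] L c)) := by
          rw [map_sub, hj1, ← IsScalarTower.algebraMap_apply k[X] K L]
          simp only [hΘd, map_mul, map_sub]
          ring
        have h3 : 𝔮.valuation L (θ - algebraMap k[X] L c) = 1 :=
          le_antisymm ((Valuation.map_sub _ _ _).trans (max_le (hθ1 𝔮) (valO_le_one 𝔮 c)))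
            (not_lt.1 hlt)
        have h4 : Valued.v (algebraMap L (𝔮.adicCompletion L)
              (algebraMap k[X] L D * (θ - algebraMap k[X] L c))) = 1 := by
          rw [vx, map_mul, h3, valO_eq_one hP hq hD, one_mul]
        have h5 : Valued.v (j x - algebraMap L (𝔮.adicCompletion L) Θ) = 1 := by
          rw [e, Valuation.map_sub_eq_of_lt_right _ (by rw [h4]; exact hj3 _ hc), h4]
        refine ev_of 𝔮 α g ?_
        have h6 := congrArg (Valued.v : 𝔮.adicCompletion L → WithZero (Multiplicative ℤ)) hg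
        rw [map_mul, h5, one_mul, map_pow] at h6
        exact h6
      by_cases hcc : 𝔓.valuation L (θ - algebraMap k[X] L c) < 1
      · refine h1 k K L O a b θ h6 hcub hsq P hP 𝔓 c h𝔓 hcc α hne hN ?_
        intro 𝔮 hq hne'
        refine key 𝔮 hq fun hlt => hne' ?_
        exact uniq (fun x hx => (h0 k K L a b θ h6 hcub hsq x).1 hx) hP hq h𝔓 hlt hcc
      · exact key 𝔓 h𝔓 hcc
    · rw [not_le] at hx
      have hv3 := big hxy hx
      have hx0 : x ≠ 0 := by
        rintro rfl
        rw [map_zero] at hx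
        exact absurd hx (by simp)
      have hvx0 : Valued.v x ≠ 0 := (Valuation.ne_zero_iff _).2 hx0
      have hvy0 : Valued.v y ≠ 0 := by
        intro h
        rw [h, zero_pow two_ne_zero] at hv3
        exact pow_ne_zero 3 hvx0 hv3.symm
      have hy0 : y ≠ 0 := (Valuation.ne_zero_iff _).1 hvy0
      obtain ⟨j, hj1, hj2, hj3⟩ := cmap (K := K) (L := L) hP hv h𝔓
      obtain ⟨g, hg⟩ := H 𝔓 j hj1
      have h3 : Valued.v (j (x ^ 3 / y ^ 2)) = 1 := j_unit j hj2 (by
        rw [map_div₀, map_pow, map_pow, hv3, div_self (pow_ne_zero 3 hvx0)])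
      have hjx := j_big j hj3 hx
      have h4 : Valued.v (algebraMap L (𝔓.adicCompletion L) Θ) ≤ 1 := by
        rw [vx, hΘd, map_mul]
        exact mul_le_one' (valO_le_one 𝔓 D) (hθ1 𝔓)
      have h5 : Valued.v (j x - algebraMap L (𝔓.adicCompletion L) Θ) = Valued.v (j x) :=
        Valuation.map_sub_eq_of_lt_left _ (lt_of_le_of_lt h4 hjx)
      have hjy0 : j y ≠ 0 := by rw [Ne, map_eq_zero]; exact hy0
      have hjx0 : j x ≠ 0 := by rw [Ne, map_eq_zero]; exact hx0
      refine ev_of 𝔓 α (g / (j y / j x)) ?_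
      have h6 := congrArg (Valued.v : 𝔓.adicCompletion L → WithZero (Multiplicative ℤ)) hg
      rw [map_mul, h5, map_pow] at h6
      have e7 : (g / (j y / j x)) ^ 2 * (j x)⁻¹ = g ^ 2 / (j x) ^ 2 * j (x ^ 3 / y ^ 2) := by
        rw [map_div₀, map_pow, map_pow]
        field_simp
      have h7 := congrArg (Valued.v : 𝔓.adicCompletion L → WithZero (Multiplicative ℤ)) e7
      have hvj0 : Valued.v (j x) ≠ 0 := (Valuation.ne_zero_iff _).2 hjx0
      rw [map_mul, map_mul, h3, mul_one, map_div₀, map_pow, map_pow, map_pow, map_inv₀, ← h6] at h7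
      calc Valued.v (algebraMap L (𝔓.adicCompletion L) α) =
          (Valued.v (j x) * Valued.v (algebraMap L (𝔓.adicCompletion L) α) /
            Valued.v (j x) ^ 2) * Valued.v (j x) := by field_simp
        _ = Valued.v (g / (j y / j x)) ^ 2 * (Valued.v (j x))⁻¹ * Valued.v (j x) := by rw [h7]
        _ = Valued.v (g / (j y / j x)) ^ 2 := by
          rw [mul_assoc, inv_mul_cancel₀ hvj0, mul_one]

end Pool.Agent.N704.PP
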